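import Pool.Agent.Helper93.KP.St

/-! VAR: the variance. -/

set_option autoImplicit false

noncomputable section

namespace Pool.Agent.Helper77.KP

open Finset Filter Topology Pool.Agent.Helper93.KP
open Pool.Agent.Helper15.AB (ee Kl StDB StMT)
open Pool.Agent.Helper9.TW (iv bx Rg cc Dec WF bm ms ind UpP LoP gm Ax GUp GLo Qs fm ej)

private theorem ev_log (ε : ℝ) (hε : 0 < ε) :
    ∀ᶠ a : ℕ in atTop, (1 + Real.log a) ^ 2 ≤ (a : ℝ) ^ (ε / 8) := by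
  have h1 : ∀ᶠ x : ℝ in atTop, (1 + Real.log x) ^ 2 ≤ x ^ (ε / 8) := by
    have hl := (isLittleO_log_rpow_atTop (show 0 < ε / 16 by positivity)).def (show (0 : ℝ) < 1 / 2 by norm_num)
    have hr := (tendsto_rpow_atTop (show 0 < ε / 16 by positivity)).eventually_ge_atTop 2
    filter_upwards [hl, hr, eventually_ge_atTop 1] with x hx1 hx2 hx3
    have hlog : 0 ≤ Real.log x := Real.log_nonneg hx3
    have hpos : 0 < x ^ (ε / 16) := by positivity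
    rw [Real.norm_of_nonneg hlog, Real.norm_of_nonneg hpos.le] at hx1
    have h2 : 1 + Real.log x ≤ x ^ (ε / 16) := by linarith
    calc (1 + Real.log x) ^ 2 ≤ (x ^ (ε / 16)) ^ 2 := pow_le_pow_left₀ (by linarith) h2 2
      _ = x ^ (ε / 8) := by
        rw [← Real.rpow_natCast, ← Real.rpow_mul (by linarith)]
        congr 1
        push_cast
        ring
  exact tendsto_natCast_atTop_atTop.eventually h1

private theorem ev_pow (ε G : ℝ) (hε : 0 < ε) : ∀ᶠ a : ℕ in atTop, 3 * G ^ 2 ≤ (a : ℝ) ^ (ε / 2) :=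
  tendsto_natCast_atTop_atTop.eventually
    ((tendsto_rpow_atTop (show 0 < ε / 2 by positivity)).eventually_ge_atTop (3 * G ^ 2))

private theorem card_NN (a : ℕ) : ((NN a).card : ℝ) = 3 * (a : ℝ) ^ 2 := by
  unfold NN
  rw [Nat.card_Ioc, show 4 * a ^ 2 - a ^ 2 = 3 * a ^ 2 by omega]
  push_cast
  ring

private theorem expand (S : Finset ℕ) (K : ℕ) (f : ℕ → ℕ → ℝ) (D E : ℝ) (hE : 0 ≤ E)
    (hd : ∀ j ∈ Icc 1 K, ∑ n ∈ S, f j n ^ 2 ≤ D)
    (ho : ∀ j ∈ Icc 1 K, ∀ k ∈ Icc 1 K, j ≠ k → |∑ n ∈ S, f j n * f k n| ≤ E) :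
    ∑ n ∈ S, (∑ j ∈ Icc 1 K, f j n) ^ 2 ≤ K * D + (K : ℝ) ^ 2 * E := by
  have h1 : ∑ n ∈ S, (∑ j ∈ Icc 1 K, f j n) ^ 2 =
      ∑ j ∈ Icc 1 K, ∑ k ∈ Icc 1 K, ∑ n ∈ S, f j n * f k n := by
    simp only [sq, Finset.sum_mul_sum]
    rw [Finset.sum_comm]
    exact Finset.sum_congr rfl fun j _ => Finset.sum_comm
  rw [h1]
  have h2 : ∀ j ∈ Icc 1 K, ∑ k ∈ Icc 1 K, ∑ n ∈ S, f j n * f k n ≤ D + K * E := by
    intro j hj
    rw [← Finset.add_sum_erase _ _ hj]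
    have h3 : ∑ n ∈ S, f j n * f j n ≤ D := by
      have := hd j hj
      simpa only [sq] using this
    have h4 : ∑ k ∈ (Icc 1 K).erase j, ∑ n ∈ S, f j n * f k n ≤ ∑ k ∈ (Icc 1 K).erase j, E := by
      refine Finset.sum_le_sum fun k hk => ?_
      rw [Finset.mem_erase] at hk
      exact (le_abs_self _).trans (ho j hj k hk.2 (Ne.symm hk.1))
    have h5 : ∑ k ∈ (Icc 1 K).erase j, E ≤ K * E := by
      rw [Finset.sum_const, nsmul_eq_mul]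
      refine mul_le_mul_of_nonneg_right ?_ hE
      have : ((Icc 1 K).erase j).card ≤ K := (Finset.card_le_card (Finset.erase_subset _ _)).trans (by simp)
      exact_mod_cast this
    linarith
  refine (Finset.sum_le_sum h2).trans ?_
  rw [Finset.sum_const, nsmul_eq_mul, Nat.card_Icc]
  rw [Nat.add_sub_cancel]
  nlinarith

theorem hVAR (hO : StOFF) (hP : StPTB) (hM : StMUD) : StVAR := by
  intro δ u hδ hδ'
  obtain ⟨θ₁, hθ₁, hθ₁', h1⟩ := hO δ u hδ hδ'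
  refine ⟨θ₁, hθ₁, hθ₁', fun θ hθ hθle => ?_⟩
  obtain ⟨κ, hκ, h2⟩ := h1 θ hθ hθle
  refine ⟨κ, hκ, fun T B ε hε => ?_⟩
  obtain ⟨a₁, ha₁, h3⟩ := h2 T B
  obtain ⟨C, hC, h4⟩ := hP (ε / 8) (by positivity)
  obtain ⟨C', hC', h5⟩ := hM
  obtain ⟨a₂, ha₂⟩ := eventually_atTop.1 ((ev_log ε hε).and (ev_pow ε (C * (T * B ^ 2) * (C + 1)) hε))
  refine ⟨max a₁ a₂, le_max_of_le_left ha₁, fun i a K al be ha hK hKa hS => ?_⟩
  have ha1 : a₁ ≤ a := (le_max_left _ _).trans ha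
  have ha2 : 2 ≤ a := ha₁.trans ha1
  obtain ⟨hlog, hpw⟩ := ha₂ a ((le_max_right _ _).trans ha)
  have haR : (1 : ℝ) ≤ a := by exact_mod_cast (by omega : 1 ≤ a)
  have haP : (0 : ℝ) < a := by linarith
  have hδa : (a : ℝ) ^ (δ / 100) ≤ a := by
    calc (a : ℝ) ^ (δ / 100) ≤ (a : ℝ) ^ (1 : ℝ) := Real.rpow_le_rpow_of_exponent_le haR (by linarith)
      _ = a := Real.rpow_one _
  have hMa : (a : ℝ) ^ (1 - δ) ≤ a := by
    calc (a : ℝ) ^ (1 - δ) ≤ (a : ℝ) ^ (1 : ℝ) := Real.rpow_le_rpow_of_exponent_le haR (by linarith)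
      _ = a := Real.rpow_one _
  have hNa : (a : ℝ) ^ (1 / 10 - δ) ≤ a := by
    calc (a : ℝ) ^ (1 / 10 - δ) ≤ (a : ℝ) ^ (1 : ℝ) := Real.rpow_le_rpow_of_exponent_le haR (by linarith)
      _ = a := Real.rpow_one _
  have hz : (1 : ℝ) ≤ (a : ℝ) ^ θ := Real.one_le_rpow haR hθ.le
  have hMU := (h5 a 1 1 T ((a : ℝ) ^ θ) ((a : ℝ) ^ (1 - δ)) ((a : ℝ) ^ (1 / 10 - δ)) B al be ha2 hz le_rfl (by omega)
    le_rfl (by omega) hMa hNa hS).1
  have hk : ∀ j ∈ Icc 1 K, 1 ≤ 30 * j ∧ ((30 * j : ℕ) : ℝ) ≤ (a : ℝ) ^ (δ / 100) := by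
    intro j hj
    rw [Finset.mem_Icc] at hj
    refine ⟨by omega, le_trans ?_ hKa⟩
    have : (j : ℝ) ≤ K := by exact_mod_cast hj.2
    push_cast
    linarith
  have hTB : (0 : ℝ) ≤ T * B ^ 2 := by positivity
  refine expand (NN a) K (fun j n => tk i a θ u n (30 * j) *
      (PP T ((a : ℝ) ^ (1 - δ)) ((a : ℝ) ^ (1 / 10 - δ)) al be (vk n (30 * j)) -
        MU T ((a : ℝ) ^ (1 - δ)) ((a : ℝ) ^ (1 / 10 - δ)) al be)) _ _ (by positivity) ?_ ?_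
  · intro j hj
    obtain ⟨hj1, hj2⟩ := hk j hj
    have hja : 30 * j ≤ a := by exact_mod_cast hj2.trans hδa
    have hpt : ∀ n ∈ NN a, (tk i a θ u n (30 * j) *
      (PP T ((a : ℝ) ^ (1 - δ)) ((a : ℝ) ^ (1 / 10 - δ)) al be (vk n (30 * j)) -
        MU T ((a : ℝ) ^ (1 - δ)) ((a : ℝ) ^ (1 / 10 - δ)) al be)) ^ 2 ≤
        (C * (T * B ^ 2) * (C + 1)) ^ 2 * (a : ℝ) ^ (ε / 2) := by
      intro n hn
      obtain ⟨-, -, -, h6, h7⟩ := h4 a (30 * j) n ha2 hj1 hja hn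
      have h8 := h6 i u θ
      have h9 := (h7 T ((a : ℝ) ^ (1 - δ)) ((a : ℝ) ^ (1 / 10 - δ)) B al be hS.1).1
      set P := PP T ((a : ℝ) ^ (1 - δ)) ((a : ℝ) ^ (1 / 10 - δ)) al be (vk n (30 * j))
      set M := MU T ((a : ℝ) ^ (1 - δ)) ((a : ℝ) ^ (1 / 10 - δ)) al be
      set t := tk i a θ u n (30 * j)
      set A := (a : ℝ) ^ (ε / 8) with hA
      have hA0 : 0 < A := by positivity
      have h10 : |P - M| ≤ T * B ^ 2 * (C + 1) * A := by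
        have h11 : |M| ≤ T * B ^ 2 * A := hMU.trans (mul_le_mul_of_nonneg_left hlog hTB)
        have h12 := abs_sub P M
        nlinarith
      have h13 : |t * (P - M)| ≤ C * (T * B ^ 2) * (C + 1) * (A * A) := by
        rw [abs_mul]
        calc |t| * |P - M| ≤ (C * A) * (T * B ^ 2 * (C + 1) * A) :=
              mul_le_mul h8 h10 (abs_nonneg _) (by positivity)
          _ = C * (T * B ^ 2) * (C + 1) * (A * A) := by ring
      have hAA : (A * A) * (A * A) = (a : ℝ) ^ (ε / 2) := by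
        rw [hA, ← Real.rpow_add haP, ← Real.rpow_add haP]
        congr 1
        ring
      calc (t * (P - M)) ^ 2 = |t * (P - M)| ^ 2 := (sq_abs _).symm
        _ ≤ (C * (T * B ^ 2) * (C + 1) * (A * A)) ^ 2 := pow_le_pow_left₀ (abs_nonneg _) h13 2
        _ = (C * (T * B ^ 2) * (C + 1)) ^ 2 * (a : ℝ) ^ (ε / 2) := by rw [← hAA]; ring
    calc ∑ n ∈ NN a, (tk i a θ u n (30 * j) *
      (PP T ((a : ℝ) ^ (1 - δ)) ((a : ℝ) ^ (1 / 10 - δ)) al be (vk n (30 * j)) -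
        MU T ((a : ℝ) ^ (1 - δ)) ((a : ℝ) ^ (1 / 10 - δ)) al be)) ^ 2 ≤
        ∑ n ∈ NN a, (C * (T * B ^ 2) * (C + 1)) ^ 2 * (a : ℝ) ^ (ε / 2) := Finset.sum_le_sum hpt
      _ = (a : ℝ) ^ 2 * (3 * (C * (T * B ^ 2) * (C + 1)) ^ 2) * (a : ℝ) ^ (ε / 2) := by
        rw [Finset.sum_const, nsmul_eq_mul, card_NN]; ring
      _ ≤ (a : ℝ) ^ 2 * (a : ℝ) ^ (ε / 2) * (a : ℝ) ^ (ε / 2) := by gcongr
      _ = (a : ℝ) ^ (2 + ε) := by
        rw [← Real.rpow_natCast, ← Real.rpow_add haP, ← Real.rpow_add haP]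
        congr 1
        push_cast
        ring
  · intro j hj k hk' hjk
    obtain ⟨hj1, hj2⟩ := hk j hj
    obtain ⟨hk1, hk2⟩ := hk k hk'
    have h6 := h3 i a (30 * j) (30 * k) al be ha1 hj1 hk1 (by omega) hj2 hk2 hS
    refine le_trans (le_of_eq ?_) h6
    congr 1
    refine Finset.sum_congr rfl fun n _ => ?_
    ring

end Pool.Agent.Helper77.KP
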